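import Pool.Agent.MP_00906f_gt.H33G.Tab
import Pool.Agent.MP_00906f_gt.H33E.Glue

/-! Genus three: the classes of level three. -/

namespace Pool.Agent.MP_00906f_gt.H33G

open H46 H46.FinAux H33E H33E.GlueA

/-- The points. -/
abbrev Pt : Type := Fin 364

/-- The image of a point. -/
def nx (i : ℕ) (p : Pt) : Pt := ⟨ent i p % 512 % 364, Nat.mod_lt _ (by norm_num)⟩

/-- The weight of an edge. -/
def wt (i : ℕ) (p : Pt) : ℚ := (ent i p / 512 : ℕ) - 64

theorem nx_val {i : ℕ} (hi : i < 7) (p : Pt) : (nx i p : ℕ) = ent i p % 512 :=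
  Nat.mod_eq_of_lt (Nat.blt_eq.mp (allB_spec (allB_spec c_lt hi) p.2))

/-- The move of a generator. -/
def mv (i : ℕ) (y : Pt × ℚ) : Pt × ℚ := (nx i y.1, y.2 + wt i y.1)

theorem step_eq (i s : ℕ) : step i s = s / 512 * 512 + ent i (s % 512) := frc_eq _ _

theorem ev_spec (l : List ℕ) (hl : ∀ i ∈ l, i < 7) (y : Pt × ℚ) :
    ((l.foldr mv y).1 : ℕ) = ev l y.1 % 512 ∧
      (l.foldr mv y).2 = y.2 + (ev l y.1 / 512 : ℕ) - 64 * l.length := by
  induction l with
  | nil =>
    have := y.1.2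
    refine ⟨by simp only [List.foldr_nil, ev]; omega, ?_⟩
    simp only [List.foldr_nil, ev, show (y.1 : ℕ) / 512 = 0 by omega]
    simp
  | cons i l ih =>
    obtain ⟨h1, h2⟩ := ih fun j hj => hl j (List.mem_cons_of_mem _ hj)
    have hi := hl i List.mem_cons_self
    rw [List.foldr_cons, ev, step_eq, ← h1]
    refine ⟨?_, ?_⟩
    · change (nx i _ : ℕ) = _
      rw [nx_val hi]; omega
    · change _ + wt i _ = _
      rw [h2, wt, show (ev l y.1 / 512 * 512 + ent i (l.foldr mv y).1) / 512 =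
        ev l y.1 / 512 + ent i (l.foldr mv y).1 / 512 by omega]
      push_cast [List.length_cons]
      ring

theorem fixes_spec {l : List ℕ} (hl : ∀ i ∈ l, i < 7) (h : fixes l = true) (y : Pt × ℚ) :
    (l.foldr mv y).1 = y.1 :=
  Fin.ext ((ev_spec l hl y).1.trans (Nat.eq_of_beq_eq_true (allB_spec h y.1.2)))

theorem nx_cube {i : ℕ} (hi : i < 7) (p : Pt) : nx i (nx i (nx i p)) = p :=
  fixes_spec (l := [i, i, i]) (by simpa using hi) (allB_spec c_cube hi) (p, 0)

/-- The permutation of a generator. -/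
def τ (i : ℕ) : Equiv.Perm (Pt × ℚ) :=
  if h : i < 7 then
    { toFun := mv i
      invFun := fun y => (nx i (nx i y.1), y.2 - wt i (nx i (nx i y.1)))
      left_inv := fun y => by simp [mv, nx_cube h]
      right_inv := fun y => by simp [mv, nx_cube h] }
  else 1

theorem τ_apply {i : ℕ} (hi : i < 7) (y : Pt × ℚ) : τ i y = mv i y := by
  rw [τ, dif_pos hi]; rfl

theorem prod_apply (l : List ℕ) (hl : ∀ i ∈ l, i < 7) (y : Pt × ℚ) :
    (l.map τ).prod y = l.foldr mv y := by
  induction l with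
  | nil => rfl
  | cons i l ih =>
    rw [List.map_cons, List.prod_cons, Equiv.Perm.mul_apply, List.foldr_cons,
      ih fun j hj => hl j (List.mem_cons_of_mem _ hj), τ_apply (hl i List.mem_cons_self)]

theorem same_spec {l l' : List ℕ} (hl : ∀ i ∈ l, i < 7) (hl' : ∀ i ∈ l', i < 7)
    (h : same l l' = true) : (l.map τ).prod = (l'.map τ).prod := by
  refine Equiv.ext fun y => ?_
  have e : ev l y.1 + 32768 * l'.length = ev l' y.1 + 32768 * l.length :=
    Nat.eq_of_beq_eq_true (allB_spec h y.1.2)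
  obtain ⟨h1, h2⟩ := ev_spec l hl y
  obtain ⟨h3, h4⟩ := ev_spec l' hl' y
  rw [prod_apply l hl, prod_apply l' hl']
  refine Prod.ext (Fin.ext (by omega)) ?_
  have e' : ev l y.1 / 512 + 64 * l'.length = ev l' y.1 / 512 + 64 * l.length := by omega
  have e'' : ((ev l y.1 / 512 : ℕ) : ℚ) + 64 * l'.length =
      (ev l' y.1 / 512 : ℕ) + 64 * l.length := by exact_mod_cast e'
  rw [h2, h4]
  linarith

theorem pw_prod {M : Type} [Monoid M] (f : ℕ → M) (l : List ℕ) (n : ℕ) :
    ((pw l n).map f).prod = (l.map f).prod ^ n := by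
  induction n with
  | zero => simp [pw]
  | succ n ih => rw [pw, List.map_append, List.prod_append, ih, pow_succ']

theorem τ_BH : BH τ (2 * 3 + 1) := by
  have hu : up τ (2 * 3 + 1) = (upW.map τ).prod := by simp [up, upW, mul_assoc]
  have hi : up τ (2 * 3 + 1) * aa τ (2 * 3 + 1) = (ioW.map τ).prod := by
    simp [up, aa, ioW, mul_assoc]
  have hw : ∀ i ∈ ioW, i < 7 := by decide
  refine ⟨⟨fun i hi => ?_, fun i j hij hj => ?_⟩, ?_, ?_, fun i hi' => ?_⟩
  · have := same_spec (by simp; omega) (by simp; omega) (allB_spec c_braid (show i < 6 by omega))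
    simpa [mul_assoc] using this
  · obtain ⟨k, rfl⟩ : ∃ k, j = k + 2 := ⟨j - 2, by omega⟩
    have := same_spec (by simp; omega) (by simp; omega)
      (allB_spec (allB_spec c_comm (show k < 5 by omega)) (show i < k + 1 by omega))
    simpa using this
  · rw [hu, ← pw_prod]
    exact same_spec (by decide) (by simp) c_pw
  · rw [hi, ← pw_prod]
    exact same_spec (by decide) (by simp) c_sq
  · have := same_spec (l := ioW ++ [i]) (l' := i :: ioW)
      (fun j hj => by
        rcases List.mem_append.1 hj with h | h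
        · exact hw j h
        · rw [List.mem_singleton.1 h]; omega)
      (fun j hj => by
        rcases List.mem_cons.1 hj with h | h
        · omega
        · exact hw j h) (allB_spec c_ce (show i < 7 by omega))
    rw [hi]
    simpa using this

/-- The action of the hyperelliptic mapping class group. -/
def aH : HypMCG 3 →* Equiv.Perm (Pt × ℚ) :=
  PresentedGroup.toGroup (f := fun i : Fin (2 * 3 + 1) => τ i)
    ((rels_iff 3 (FreeGroup.lift fun i : Fin (2 * 3 + 1) => τ i) τ fun i => by simp).2 τ_BH)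

/-- The action of the braid group. -/
def aB : Br (2 * 3) →* Equiv.Perm (Pt × ℚ) := aH.comp (piB 3)

theorem aB_sg {i : ℕ} (hi : i < 6) : aB (sg (2 * 3) i) = τ (i + 1) := by
  rw [aB, MonoidHom.comp_apply, piB_sg (by omega),
    show tt 3 (i + 1) = _ from tt_of ⟨i + 1, by omega⟩, aH, PresentedGroup.toGroup.of]

/-- The displacement relation. -/
def rr (y y' : Pt × ℚ) (t : ℚ) : Prop := y.1 = y'.1 ∧ y'.2 = y.2 + t

theorem rr_equi (g : Br (2 * 3)) (y y' : Pt × ℚ) (t : ℚ) (h : rr y y' t) :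
    rr (aB g y) (aB g y') t := by
  refine (br_rel aB aB (fun y y' => rr y y' t) (fun i hi y y' => ?_) g y y').1 h
  rw [aB_sg (by omega), τ_apply (by omega), τ_apply (by omega)]
  constructor
  · rintro ⟨h1, h2⟩
    refine ⟨congrArg (nx _) h1, ?_⟩
    simp only [mv, h1, h2]; ring
  · rintro ⟨h1, h2⟩
    have h3 : y.1 = y'.1 := by
      rw [← nx_cube (show i + 1 < 7 by omega) y.1, ← nx_cube (show i + 1 < 7 by omega) y'.1]
      exact congrArg (fun p => nx _ (nx _ p)) h1
    refine ⟨h3, ?_⟩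
    simp only [mv, h3] at h2
    linarith

theorem aB_fst (g : Br (2 * 3)) (y : Pt × ℚ) : (aB g y).1 = (aB g (y.1, 0)).1 :=
  ((rr_equi g (y.1, 0) y y.2 ⟨rfl, by simp⟩).1).symm

/-- The action on the points. -/
def bar : Br (2 * 3) →* Equiv.Perm Pt :=
  MonoidHom.mk' (fun g =>
    { toFun := fun p => (aB g (p, 0)).1
      invFun := fun p => (aB g⁻¹ (p, 0)).1
      left_inv := fun p => by
        beta_reduce
        rw [← aB_fst, ← Equiv.Perm.mul_apply, ← map_mul, inv_mul_cancel, map_one]; rfl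
      right_inv := fun p => by
        beta_reduce
        rw [← aB_fst, ← Equiv.Perm.mul_apply, ← map_mul, mul_inv_cancel, map_one]; rfl })
    fun g h => Equiv.ext fun p => by
      change (aB (g * h) (p, 0)).1 = (aB g ((aB h (p, 0)).1, 0)).1
      rw [← aB_fst, map_mul]; rfl

theorem bar_apply (g : Br (2 * 3)) (y : Pt × ℚ) : bar g y.1 = (aB g y).1 := (aB_fst g y).symm

/-- The braid of a word. -/
def wd (l : List ℕ) : Br (2 * 3) := (l.map fun i => sg (2 * 3) (i - 1)).prod

theorem aB_wd {l : List ℕ} (hl : ∀ i ∈ l, 1 ≤ i ∧ i < 7) (y : Pt × ℚ) :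
    aB (wd l) y = l.foldr mv y := by
  rw [← prod_apply l fun i hi => (hl i hi).2, wd, map_list_prod, List.map_map]
  congr 2
  refine List.map_congr_left fun i hi => ?_
  obtain ⟨h1, h2⟩ := hl i hi
  rw [Function.comp_apply, aB_sg (by omega), Nat.sub_add_cancel h1]

theorem T3_wd : T3 (sg (2 * 3)) = wd (pw [1, 2] 6) := by rw [wd, pw_prod]; simp [T3]

theorem T5_wd : T5 (sg (2 * 3)) = wd (pw [1, 2, 3, 4] 10) := by
  rw [wd, pw_prod]; simp [T5, mul_assoc]

/-- The value on the genus one twist. -/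
def t3 (p : Pt) : ℚ := (tT p : ℚ) - 120

theorem aB_T3 (y : Pt × ℚ) : (aB (T3 (sg (2 * 3))) y).2 - y.2 = t3 y.1 := by
  have e : ev (pw [1, 2] 6) y.1 / 512 = tT y.1 + 648 :=
    Nat.eq_of_beq_eq_true (allB_spec c_tT y.1.2)
  rw [T3_wd, aB_wd (by decide), (ev_spec _ (by decide) y).2, e, t3,
    show (pw [1, 2] 6).length = 12 from rfl]
  push_cast
  ring

theorem bar_cube {i : ℕ} (hi : i < 6) : bar (sg (2 * 3) i ^ 3) = 1 := by
  refine Equiv.ext fun p => ?_
  rw [bar_apply _ (p, 0), map_pow, aB_sg hi]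
  simp only [pow_succ, pow_zero, one_mul, Equiv.Perm.mul_apply, τ_apply (show i + 1 < 7 by omega)]
  exact nx_cube (by omega) p

theorem bar_trans (p : Pt) : ∃ h, bar h 0 = p := by
  obtain ⟨n, hn⟩ := p
  induction n using Nat.strong_induction_on with
  | _ n ih =>
    rcases n with _ | n
    · exact ⟨1, by rw [map_one]; rfl⟩
    · have h := allB_spec c_tr (show n < 363 by omega)
      have : ∃ i, i < 6 ∧ ent (i + 1) (n + 1) % 512 < n + 1 := by
        by_contra hc
        push Not at hc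
        have key : ∀ k, k ≤ 6 → allB (fun i => Nat.ble (n + 1)
            (Nat.mod (ent (i + 1) (n + 1)) 512)) k = true := by
          intro k hk
          induction k with
          | zero => rfl
          | succ k ihk =>
            rw [allB, ihk (by omega), Bool.and_true]
            exact Nat.ble_eq.mpr (hc k (by omega))
        rw [key 6 le_rfl] at h
        exact absurd h (by decide)
      obtain ⟨i, hi, hlt⟩ := this
      have e := nx_val (show i + 1 < 7 by omega) ⟨n + 1, hn⟩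
      obtain ⟨g, hg⟩ := ih _ (e ▸ hlt) (nx (i + 1) ⟨n + 1, hn⟩).2
      refine ⟨(sg (2 * 3) i)⁻¹ * g, ?_⟩
      rw [map_mul, Equiv.Perm.mul_apply, hg, map_inv, Equiv.Perm.inv_eq_iff_eq,
        bar_apply _ (⟨n + 1, hn⟩, 0), aB_sg hi, τ_apply (by omega)]
      rfl

/-- The sum over the lines through the first point. -/
def kap (q : Pt) : ℚ := (wds.map fun w => t3 (bar (wd w) q)).sum

theorem kapN_cons (q : ℕ) (w : List ℕ) (L : List (List ℕ)) :
    kapN q (w :: L) = tT (ev w q % 512) + kapN q L := by rw [kapN]; rfl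

theorem kap_aux (q : Pt) (L : List (List ℕ)) (hL : ∀ w ∈ L, ∀ i ∈ w, 1 ≤ i ∧ i < 7) :
    (L.map fun w => t3 (bar (wd w) q)).sum = (kapN q L : ℚ) - 120 * L.length := by
  induction L with
  | nil => rw [kapN]; simp
  | cons w L ih =>
    have hw := hL w List.mem_cons_self
    have e : (bar (wd w) q : ℕ) = ev w q % 512 := by
      rw [bar_apply _ (q, 0), aB_wd hw]
      exact (ev_spec w (fun i hi => (hw i hi).2) _).1
    rw [List.map_cons, List.sum_cons, ih fun v hv => hL v (List.mem_cons_of_mem _ hv), t3, e,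
      kapN_cons, List.length_cons]
    push_cast
    ring

theorem wds_lt : ∀ w ∈ wds, ∀ i ∈ w, 1 ≤ i ∧ i < 7 := by decide +kernel

theorem wds_len : wds.length = 81 := by decide +kernel

theorem kap_eq (q : Pt) : kap q = (kapN q wds : ℚ) - 9720 := by
  rw [kap, kap_aux q wds wds_lt, wds_len]
  generalize kapN q wds = k
  norm_num

theorem kap_zero : kap 0 = -9720 := by
  rw [kap_eq, Fin.val_zero, c_k0]; simp

theorem sq_aux (k s : ℕ) : ((Nat.add (Nat.add (Nat.pow (Nat.sub k 9770) 2)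
    (Nat.pow (Nat.sub 9770 k) 2)) s : ℕ) : ℚ) = s + ((k : ℚ) - 9720 - 50) ^ 2 := by
  change (((k - 9770) ^ 2 + (9770 - k) ^ 2 + s : ℕ) : ℚ) = _
  rcases le_total k 9770 with h | h
  · rw [Nat.sub_eq_zero_of_le h]
    push_cast [Nat.cast_sub h]
    ring
  · rw [Nat.sub_eq_zero_of_le h]
    push_cast [Nat.cast_sub h]
    ring

theorem sqN_eq (n : ℕ) :
    ∑ q ∈ Finset.range n, ((kapN q wds : ℚ) - 9720 - 50) ^ 2 = (sqN n : ℚ) := by
  induction n with
  | zero => rw [sqN, Finset.sum_range_zero, Nat.cast_zero]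
  | succ n ih => rw [Finset.sum_range_succ, ih, sqN, frc_eq, sq_aux]

theorem kap_sq : ∑ q : Pt, (kap q - 50) ^ 2 = 177269680 := by
  rw [Finset.sum_congr rfl fun q _ => by rw [kap_eq],
    Fin.sum_univ_eq_sum_range (fun q => ((kapN q wds : ℚ) - 9720 - 50) ^ 2) 364, sqN_eq, c_sqN]
  norm_num

theorem classes {ρ : HypMCG 3 →* (Hom1 3 ≃ₗ[ℤ] Hom1 3)} (hρ : IsHomologyAction 3 ρ) (p : Pt) :
    ∃ φ, Good le_rfl hρ φ ∧ ∀ g, ((XB le_rfl hρ).val φ g).1 = t3 (bar g⁻¹ p) := by
  obtain ⟨φ, h1, h2⟩ := frame aB (XB le_rfl hρ).ρ.ker {T3 (sg (2 * 3)), T5 (sg (2 * 3))}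
    (fun k hk => by
      refine Subgroup.closure_mono ?_
        ((Sys.main 3 (XB le_rfl hρ).toSys rfl).2.2 k ((XB le_rfl hρ).top k) hk)
      rintro x ⟨g, -, ⟨-, rfl⟩ | ⟨-, rfl⟩⟩
      · exact ⟨g, _, Or.inl rfl, rfl⟩
      · exact ⟨g, _, Or.inr rfl, rfl⟩)
    rr (fun y y' t h => ⟨h.1.symm, by rw [h.2]; ring⟩)
    (fun y y' y'' t t' h h' => ⟨h.1.trans h'.1, by rw [h'.2, h.2]; ring⟩)
    (fun y t h => by linarith [h.2]) rr_equi (fun τ y => (aB τ y).2 - y.2)
    (by
      rintro τ (rfl | rfl) y -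
      · refine ⟨?_, by ring⟩
        rw [T3_wd, aB_wd (by decide), fixes_spec (by decide) c_T3]
      · refine ⟨?_, by ring⟩
        rw [T5_wd, aB_wd (by decide), fixes_spec (by decide) c_T5])
    (fun τ _ y y' t h => by rw [(rr_equi τ y y' t h).2, h.2]; ring) (p, 0) ⟨rfl, by simp⟩
  refine ⟨φ, fun k k' e e' _ => h1 k k' ?_, fun g => ?_⟩
  · have e1 : piB 3 k = 1 := congrArg Subtype.val e
    have e2 : piB 3 k' = 1 := congrArg Subtype.val e'
    simp only [aB, MonoidHom.comp_apply, e1, e2]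
  · refine (h2 _ (Or.inl rfl) g _).trans ?_
    rw [aB_T3, bar_apply _ (p, 0)]

end Pool.Agent.MP_00906f_gt.H33G
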