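import Mathlib

/-! The square of the trace is at most the rank times the sum of the squares of the entries. -/

namespace Pool.Agent.MP_00906f_gt.H33G

open Finset

theorem trace_sq_le {P : Type} [Fintype P] [DecidableEq P] (W : Submodule ℚ (P → ℚ))
    (x : P → P → ℚ) (hx : ∀ q, x q ∈ W) :
    (∑ q, x q q) ^ 2 ≤ Module.finrank ℚ W * ∑ q, ∑ p, x q p ^ 2 := by
  let B : LinearMap.BilinForm ℚ (P → ℚ) := dotProductBilin ℚ ℚ
  have hB : ∀ u v, B u v = ∑ p, u p * v p := fun _ _ => rfl
  have hr : B.IsRefl := fun u v h => by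
    rw [hB] at h ⊢
    simpa only [mul_comm] using h
  have hc : IsCompl W (B.orthogonal W) := by
    refine (LinearMap.BilinForm.isCompl_orthogonal_iff_disjoint hr).2 ?_
    refine Submodule.disjoint_def.2 fun u hu hu' => ?_
    have h : ∑ p, u p * u p = 0 := hu' u hu
    funext p
    exact mul_self_eq_zero.1 ((sum_eq_zero_iff_of_nonneg fun p _ => mul_self_nonneg (u p)).1 h p
      (mem_univ p))
  let π : (P → ℚ) →ₗ[ℚ] (P → ℚ) := W.projection _ hc
  have hπ : LinearMap.IsProj W π := ⟨fun u => Submodule.projection_apply_mem hc u,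
    fun u hu => Submodule.projection_apply_of_mem_left hc hu⟩
  have ho : ∀ u v, v ∈ W → ∑ p, v p * π u p = ∑ p, v p * u p := by
    intro u v hv
    have h1 : u - π u ∈ B.orthogonal W := Submodule.sub_projection_mem hc u
    have h2 : ∑ p, v p * (u - π u) p = 0 := h1 v hv
    simp only [Pi.sub_apply, mul_sub, sum_sub_distrib] at h2
    linarith
  let e : P → P → ℚ := fun q => π (Pi.single q 1)
  have hs : ∀ (v : P → ℚ) q, ∑ p, v p * (Pi.single q 1 : P → ℚ) p = v q := fun v q => by
    simp [Pi.single_apply]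
  have h1 : ∀ q, x q q = ∑ p, x q p * e q p := fun q => by rw [ho _ _ (hx q), hs]
  have h2 : ∀ q, ∑ p, e q p ^ 2 = e q q := fun q => by
    simp only [sq]
    rw [ho _ _ (hπ.map_mem _), hs]
  have h3 : ∑ q, e q q = Module.finrank ℚ W := by
    rw [← hπ.trace, LinearMap.trace_eq_matrix_trace ℚ (Pi.basisFun ℚ P)]
    simp [Matrix.trace, e]
  have h4 := sum_mul_sq_le_sq_mul_sq (univ : Finset (P × P)) (fun t => x t.1 t.2) fun t => e t.1 t.2
  simp only [Fintype.sum_prod_type] at h4
  rw [← sum_congr rfl fun q _ => h1 q, sum_congr rfl fun q _ => h2 q, h3, mul_comm] at h4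
  exact h4

end Pool.Agent.MP_00906f_gt.H33G
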