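import Pool.Agent.MP_00906f_gt.H33G.Act
import Pool.Agent.MP_00906f_gt.H33G.Rank
import Pool.Agent.MP_00906f_gt.H91.Exact
import Pool.Agent.MP_00906f_gt.H33E.H4
import Pool.Agent.MP_00906f_gt.H33E.HL
import Pool.Agent.MP_00906f_gt.H33E.MeyA
import Pool.Agent.MP_00906f_gt.H33E.MeyB
import Pool.Agent.MP_00906f_gt.H33E.Desc
import Pool.Agent.MP_00906f_gt.H33E.Lab
import Pool.Agent.MP_00906f_gt.H33E.Span
import Pool.Agent.MP_00906f_gt.H33E.Indep
import Pool.Agent.MP_00906f_gt.H33E.Zar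
import Pool.Agent.MP_00906f_gt.H33E.Ssyt

/-! Genus three: the first Betti number is at least `614`. -/

namespace Pool.Agent.MP_00906f_gt.H33G

open H46 H46.FinAux H33E H33E.GlueA

section unip

variable {G H : Type} [Group G] [AddCommGroup H] (X : XSys G H)

theorem ρ_pow {i : ℕ} (hi : i < X.N) (k : ℕ) (x : H) :
    X.ρ (X.σ i ^ k) x = x + ((k : ℤ) * X.ω x (X.c i)) • X.c i := by
  induction k with
  | zero => simp
  | succ k ih =>
    rw [pow_succ', map_mul, Module.End.mul_apply, ih, X.ρσ i hi]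
    simp only [map_add, map_smul, LinearMap.add_apply, LinearMap.smul_apply, X.alt, smul_zero,
      add_zero]
    push_cast
    module

theorem B3_pow {i : ℕ} (hi : i < X.N) (g : G) :
    ∃ d : H → H → ℚ, ∀ (k : ℕ) p q, X.B3 (X.σ i ^ k * g) p q = X.B3 g p q + k * d p q := by
  refine ⟨fun p q => (X.ω (X.ρ g (X.c 0)) (X.c i) *
      (X.ω p (X.c i) * X.ω q (X.ρ g (X.c 1)) - X.ω p (X.ρ g (X.c 1)) * X.ω q (X.c i)) +
    X.ω (X.ρ g (X.c 1)) (X.c i) *
      (X.ω p (X.ρ g (X.c 0)) * X.ω q (X.c i) - X.ω p (X.c i) * X.ω q (X.ρ g (X.c 0))) : ℤ),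
    fun k p q => ?_⟩
  simp only [XSys.B3, XSys.pl, map_mul, Module.End.mul_apply, ρ_pow X hi, map_add, map_smul,
    smul_eq_mul]
  push_cast
  ring

theorem third (hk : LabKit X) (a b : ℚ) {i : ℕ} (hi : i < X.N) (g : G) (v : G → ℚ × ℚ)
    (hv : v ∈ Submodule.span ℚ (X.Fam a b)) :
    (v (X.σ i ^ 12 * g)).1 - 3 * (v (X.σ i ^ 8 * g)).1 + 3 * (v (X.σ i ^ 4 * g)).1 - (v g).1 = 0 := by
  have hp : X.perm (X.σ i ^ 2) = 1 := by rw [map_pow, X.perm_σ i hi, sq, Equiv.swap_mul_self]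
  have hp' : ∀ m, X.perm (X.σ i ^ (4 * m) * g) = X.perm g := fun m => by
    rw [show 4 * m = 2 * (2 * m) by ring, pow_mul, map_mul, map_pow, hp, one_pow, one_mul]
  have hl : ∀ m, X.lab (X.σ i ^ (4 * m) * g)⁻¹ = X.lab g⁻¹ := fun m => by
    rw [show 4 * m = 2 * 2 * m by ring, pow_mul, pow_mul, map_inv, map_mul, map_pow, hk.sq _ hp,
      one_pow, one_mul, map_inv]
  induction hv using Submodule.span_induction with
  | mem v hv =>
    rcases hv with ⟨p, q, r, e, I, rfl⟩ | ⟨A, c, d, h, rfl⟩ | rfl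
    · obtain ⟨d, hd⟩ := B3_pow X hi g
      simp only [XSys.v4, XSys.sI, hd, hp' 1, hp' 2, hp' 3]
      push_cast
      ring
    · simp only [XSys.vL, hl 1, hl 2, hl 3]
      ring
    · ring
  | zero => simp
  | add x y _ _ hx hy => simp only [Pi.add_apply, Prod.fst_add]; linarith
  | smul c x _ hx =>
    simp only [Pi.smul_apply, Prod.smul_fst, smul_eq_mul]
    linear_combination c * hx

theorem const_of (hk : LabKit X) (a b : ℚ) (v : G → ℚ × ℚ)
    (hv : v ∈ Submodule.span ℚ (X.Fam a b))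
    (h3 : ∀ i, i < X.N → ∀ g, (v (X.σ i ^ 3 * g)).1 = (v g).1) (g : G) : (v g).1 = (v 1).1 := by
  have h1 : ∀ i, i < X.N → ∀ g, (v (X.σ i * g)).1 = (v g).1 := by
    intro i hi g
    have hm : ∀ m, (v (X.σ i ^ (m + 3) * g)).1 = (v (X.σ i ^ m * g)).1 := fun m => by
      rw [add_comm, pow_add, mul_assoc, h3 i hi]
    have h := third X hk a b hi (X.σ i ^ 2 * g) v hv
    simp only [← mul_assoc, ← pow_add] at h
    have e := hm 0
    have e1 := hm 1
    rw [pow_zero, one_mul] at e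
    rw [pow_one] at e1
    linarith [hm 2, hm 3, hm 4, hm 5, hm 7, hm 8, hm 11]
  have key : ∀ h ∈ BB X.σ X.N, ∀ g, (v (h * g)).1 = (v g).1 := by
    intro h hh
    induction hh using Subgroup.closure_induction with
    | mem x hx => obtain ⟨i, hi, rfl⟩ := hx; exact h1 i hi
    | one => simp
    | mul x y _ _ hx hy => intro g; rw [mul_assoc, hx, hy]
    | inv x _ hx => intro g; rw [← hx, mul_inv_cancel_left]
  simpa using key g (X.top g) 1

end unip

theorem rank_ge (ψ : Pt → Br (2 * 3) → ℚ × ℚ) (hψ : ∀ p g, (ψ p g).1 = t3 (bar g⁻¹ p)) :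
    ∃ M : (Br (2 * 3) → ℚ × ℚ) →ₗ[ℚ] (Pt → ℚ), (∀ v, (∀ g, (v g).1 = (v 1).1) → M v = 0) ∧
      195 ≤ Module.finrank ℚ ((Submodule.span ℚ (Set.range ψ)).map M) := by
  choose h hh using bar_trans
  let M : (Br (2 * 3) → ℚ × ℚ) →ₗ[ℚ] (Pt → ℚ) :=
    { toFun := fun v p => (wds.map fun w => (v (h p * (wd w)⁻¹)).1 - (v 1).1).sum
      map_add' := fun u v => by
        funext p
        simp only [Pi.add_apply, Prod.fst_add, ← List.sum_map_add]
        exact congrArg List.sum (List.map_congr_left fun w _ => by ring)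
      map_smul' := fun c v => by
        funext p
        simp only [Pi.smul_apply, Prod.smul_fst, smul_eq_mul, RingHom.id_apply,
          ← List.sum_map_mul_left]
        exact congrArg List.sum (List.map_congr_left fun w _ => by ring) }
  refine ⟨M, fun v hv => funext fun p => ?_, ?_⟩
  · exact List.sum_eq_zero fun x hx => by
      obtain ⟨w, -, rfl⟩ := List.mem_map.1 hx
      rw [hv, sub_self]
  let W := (Submodule.span ℚ (Set.range ψ)).map M
  let one : Pt → ℚ := fun _ => 1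
  have hM : ∀ q p, M (ψ q) p = kap (bar (h p)⁻¹ q) - 81 * (ψ q 1).1 := fun q p => by
    change (wds.map fun w => (ψ q (h p * (wd w)⁻¹)).1 - (ψ q 1).1).sum = _
    simp only [sub_eq_add_neg, List.sum_map_add, List.map_const', List.sum_replicate, wds_len, kap,
      hψ q (_ * _), mul_inv_rev, inv_inv, map_mul, Equiv.Perm.mul_apply, nsmul_eq_mul]
    push_cast
    ring
  have key := trace_sq_le (W ⊔ Submodule.span ℚ {one}) (fun q p => kap (bar (h p)⁻¹ q) - 50)
    fun q => by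
      have e : (fun p => kap (bar (h p)⁻¹ q) - 50) = M (ψ q) + (81 * (ψ q 1).1 - 50) • one := by
        funext p
        simp only [Pi.add_apply, Pi.smul_apply, hM, one, smul_eq_mul]
        ring
      rw [e]
      exact Submodule.add_mem_sup
        (Submodule.mem_map_of_mem (Submodule.subset_span ⟨q, rfl⟩))
        (Submodule.smul_mem _ _ (Submodule.mem_span_singleton_self _))
  have e1 : ∀ q, kap (bar (h q)⁻¹ q) - 50 = -9770 := fun q => by
    rw [map_inv, Equiv.Perm.inv_eq_iff_eq.2 (hh q).symm, kap_zero]; norm_num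
  have e2 : ∀ p, ∑ q, (kap (bar (h p)⁻¹ q) - 50) ^ 2 = 177269680 := fun p => by
    rw [← kap_sq]
    exact Equiv.sum_comp (bar (h p)⁻¹) fun q => (kap q - 50) ^ 2
  rw [Finset.sum_comm, Finset.sum_congr rfl fun q _ => e1 q, Finset.sum_congr rfl fun p _ => e2 p,
    Finset.sum_const, Finset.sum_const, Finset.card_univ, Fintype.card_fin] at key
  have h1 := Submodule.finrank_add_le_finrank_add_finrank W (Submodule.span ℚ {one})
  have h2 : Module.finrank ℚ (Submodule.span ℚ {one}) ≤ 1 := by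
    simpa using finrank_span_le_card (R := ℚ) ({one} : Set (Pt → ℚ))
  by_contra hc
  have h3 : (Module.finrank ℚ (W ⊔ Submodule.span ℚ {one} : Submodule ℚ _) : ℚ) ≤ 195 := by
    have : Module.finrank ℚ W ≤ 194 := Nat.le_of_lt_succ (not_le.1 hc)
    exact_mod_cast (show _ ≤ 195 by omega)
  simp only [nsmul_eq_mul] at key
  push_cast at key
  nlinarith

theorem lower3 {ρ : HypMCG 3 →* (Hom1 3 ≃ₗ[ℤ] Hom1 3)} (hρ : IsHomologyAction 3 ρ)
    (h4 : SH4) (hL : SHL) (hM : SMey) (hD : SDesc) (hk : SLab) (hS : SSpan)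
    (hI : SIndep) (hC : SCard) [Module.Finite ℚ (Additive ρ.ker →+ ℚ)] :
    614 ≤ Module.finrank ℚ (Additive ρ.ker →+ ℚ) := by
  have hg : 3 ≤ 3 := le_rfl
  obtain ⟨a, b, hab, hs⟩ := exists_s hg hρ hM
  have kit := hk _ _ (XB hg hρ)
  choose φ hφ hφ' using classes hρ
  obtain ⟨M, hM0, hM1⟩ := rank_ge (fun p => (XB hg hρ).val (φ p)) hφ'
  let V0 := Submodule.span ℚ ((XB hg hρ).Fam a b)
  let V1 := Submodule.span ℚ (Set.range fun p => (XB hg hρ).val (φ p))
  have hF : V0 ⊔ V1 ≤ (H91.Lower.GoodS hg hρ).map (valL (XB hg hρ)) := by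
    refine sup_le (Submodule.span_le.2 ?_) (Submodule.span_le.2 ?_)
    · rintro v (⟨p, q, r, e, I, rfl⟩ | ⟨A, c, d, h, rfl⟩ | rfl)
      · obtain ⟨φ, h1, h2⟩ := h4 _ _ (XB hg hρ) rfl rfl p q r e I
        exact ⟨φ, fun k k' _ _ h => h1 k k' h, h2⟩
      · obtain ⟨φ, h1, h2⟩ := hL _ _ (XB hg hρ) rfl rfl A c d h
        exact ⟨φ, fun k k' _ _ h => h1 k k' h, h2⟩
      · exact hs
    · rintro _ ⟨p, rfl⟩
      exact ⟨φ p, hφ p, rfl⟩
  have e0 : V0 = Submodule.span ℚ (Set.range ((XB hg hρ).bas a b)) := hS _ _ (XB hg hρ) kit a b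
  have f0 : Module.Finite ℚ V0 := by
    rw [e0]; exact Module.Finite.span_of_finite ℚ (Set.finite_range _)
  have f1 : Module.Finite ℚ V1 := Module.Finite.span_of_finite ℚ (Set.finite_range _)
  have r0 : Module.finrank ℚ V0 = 420 := by
    have h2 := hC 3 hg
    have h5 : Fintype.card (Ix (XB hg hρ).N) = Fintype.card (Ix (2 * 3)) := rfl
    rw [e0, finrank_span_eq_card (hI _ _ _ kit a b hab)]
    omega
  have hle : V0 ⊓ V1 ≤ (LinearMap.ker (M.domRestrict V1)).map V1.subtype := by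
    rintro v ⟨h0, h1⟩
    refine ⟨⟨v, h1⟩, hM0 v (const_of _ kit a b v h0 fun i hi g => ?_), rfl⟩
    clear h0
    induction h1 using Submodule.span_induction with
    | mem v hv =>
      obtain ⟨p, rfl⟩ := hv
      change ((XB hg hρ).val (φ p) (sg (2 * 3) i ^ 3 * g)).1 = _
      rw [hφ', hφ', mul_inv_rev, map_mul, map_inv bar (_ ^ 3), bar_cube hi, inv_one, mul_one]
    | zero => rfl
    | add x y _ _ hx hy => simp only [Pi.add_apply, Prod.fst_add, hx, hy]
    | smul c x _ hx => simp only [Pi.smul_apply, Prod.smul_fst, hx]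
  have h1 := Submodule.finrank_mono hle
  rw [Submodule.finrank_map_subtype_eq] at h1
  have h2 := LinearMap.finrank_range_add_finrank_ker (M.domRestrict V1)
  rw [LinearMap.range_domRestrict] at h2
  have h3 := Submodule.finrank_sup_add_finrank_inf_eq V0 V1
  let bs := Module.finBasis ℚ (V0 ⊔ V1 : Submodule ℚ _)
  choose χ hχ hχ' using fun i => hF (bs i).2
  have hi : LinearIndependent ℚ χ := by
    refine LinearIndependent.of_comp (valL (XB hg hρ)) ?_
    have e : (valL (XB hg hρ)) ∘ χ = (V0 ⊔ V1).subtype ∘ bs := funext hχ'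
    rw [e]
    exact bs.linearIndependent.map' _ (Submodule.ker_subtype _)
  have h5 := H91.Lower.card_le hg hρ hD χ hχ hi
  rw [Fintype.card_fin] at h5
  have h6 : 195 ≤ Module.finrank ℚ (V1.map M) := hM1
  omega

/-- From the upper bound in genus three to the exact rank. -/
theorem exact3
    (hU : ∀ ρ : HT.HypMCG 3 →* Equiv.Perm (HT.Hom1 3), HT.IsHomologyAction 3 ρ →
      Module.finrank ℤ (Additive (Abelianization ρ.ker)) ≤ 614) :
    ∃ ρ : HT.HypMCG 3 →* Equiv.Perm (HT.Hom1 3), HT.IsHomologyAction 3 ρ ∧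
      Group.FG (Abelianization ρ.ker) ∧
      Module.finrank ℤ (Additive (Abelianization ρ.ker)) = 614 := by
  obtain ⟨ρ, hρ⟩ := H46.exists_action 3
  have h := H46.reduction H46.abstractFG 3 le_rfl ρ hρ
  let ι : (H46.Hom1 3 ≃ₗ[ℤ] H46.Hom1 3) →* Equiv.Perm (H46.Hom1 3) := MulAction.toPermHom _ _
  have hι : Function.Injective ι := fun a b e => LinearEquiv.ext fun x => by
    exact congrArg (fun f : Equiv.Perm (H46.Hom1 3) => f x) e
  have hk' : (ι.comp ρ).ker = ρ.ker := MonoidHom.ker_comp_of_injective ρ ι hι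
  have h1 := hU (ι.comp ρ) hρ
  have := H91.fin_hom _ h
  have h2 := lower3 hρ sH4 (sHL sLab) (sMey sMeyA) sDesc sLab sSpan (sIndep sZar sSsyt sChi) sCard
  rw [← sRank _ h] at h2
  refine ⟨ι.comp ρ, hρ, ?_⟩
  have h3 : Group.FG (Abelianization (ι.comp ρ).ker) ∧
      614 ≤ Module.finrank ℤ (Additive (Abelianization (ι.comp ρ).ker)) := by
    rw [hk']; exact ⟨h, h2⟩
  exact ⟨h3.1, le_antisymm h1 h3.2⟩

end Pool.Agent.MP_00906f_gt.H33G
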